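import Pool.Agent.MP_1246c0_nt.H12.SpecA

/-! The criterion: assembly. -/

namespace Pool.Agent.MP_1246c0_nt.H12

open Polynomial Finset

namespace CRIT

theorem lev_ex {ι : Type} [Fintype ι] [DecidableEq ι] {lv : ι → ℕ} {e : ι → F2}
    {S : Matrix ι ι F2} {a f : ℕ} (h : BadL lv e S a f) : ∃ i, a ≤ lv i := by
  obtain ⟨p, -, -, g, hg, -⟩ := h
  obtain ⟨i, -⟩ := Function.ne_iff.1 hg
  exact ⟨i.1, i.2⟩

theorem deg_pos {q : ℤ[X]} (h : Irreducible (q.map (Int.castRingHom F2))) : 1 ≤ q.natDegree :=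
  (Irreducible.natDegree_pos h).trans_le natDegree_map_le

end CRIT

open CRIT in
theorem rowCRIT : OfCRIT := by
  intro hQ hG hS hD hY h1 h2 ι _ _ pr P hL hn
  obtain ⟨sq, md, pf, gP, -, -⟩ := hQ.lab ι pr P hL
  have hc := mt (hG _ (max (am (P * ∏ i, pr i) + 1) (tt (P * ∏ i, pr i))) sq md) hn
  push Not at hc
  obtain ⟨L, _, _, M, m, s, θ, σ, γ, tw, hm, hM, c1, c2⟩ := hc
  have ha : am (P * ∏ i, pr i) < m := (le_max_left _ _).trans hm
  obtain ⟨O, _, _, _, _, _, t, eg, hR⟩ := hS L _ M m s θ σ γ tw hM ha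
    (((le_max_right _ _).trans hm).trans Nat.lt_two_pow_self.le) c1 c2
  rw [pf] at hR
  have _ : DecidablePred fun k => 2 ∣ om k t := Classical.decPred _
  have lv : Lv t (Nat.find eg.2.2) := ⟨Nat.find_spec eg.2.2, fun i hi => Nat.find_min eg.2.2 hi⟩
  generalize Nat.find eg.2.2 = a at lv
  obtain ⟨s', hs⟩ := lv.1
  obtain ⟨q, q1, q2, q3⟩ := h1.mp O s' eg.1
  obtain ⟨D0⟩ := hD.ex 0
  obtain ⟨y0, r0⟩ := hR 0 (by omega) D0
  have gd : ∀ l ∈ SP pr P, Gd 0 l := fun l hl => by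
    rcases mem_insert.1 hl with rfl | hl
    · exact gP
    · obtain ⟨i, -, rfl⟩ := mem_image.1 hl
      exact hL.odd i
  have hB : ∀ f ≤ q.natDegree,
      BadL (fun i => lev (pr i)) (fun i => eps (pr i)) (Sm0 pr P) a f := fun f hf =>
    h1.hit O ι pr P a f _ _ t s' y0 q hL eg lv hs r0
      (fun l hl l' hl' => (hY.zero D0 _ l l' (gd l hl) (gd l' hl')).1)
      (fun l hl => (hY.zero D0 ∅ l l (gd l hl) (gd l hl)).2) q1 q2 q3 hf
  refine ⟨a, hB 1 (deg_pos q2), fun n f D Λ _ st au g lg hna => ?_⟩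
  rcases le_or_gt (f + 1) q.natDegree with hf | hf
  · exact Or.inl (hB _ hf)
  · obtain ⟨i, hi⟩ := lev_ex (hB 1 (deg_pos q2))
    have hi' : lev (pr i) ≤ am (P * ∏ i, pr i) :=
      le_sup (f := lev) (pf ▸ mem_insert_of_mem (mem_image_of_mem pr (mem_univ i)))
    obtain ⟨y, r⟩ := hR n (by omega) D
    exact Or.inr (h2 O ι Λ st au g pr P a f n _ _ t s' y q lg hL eg lv hs hna r q1 q2 q3 (by omega))

end Pool.Agent.MP_1246c0_nt.H12
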